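import Mathlib

set_option autoImplicit false
set_option linter.unusedSectionVars false

namespace Pool.Agent.H.MP_aeebd3_an

open MeasureTheory ProbabilityTheory Real Function
open scoped RealInnerProductSpace

section gauss
variable {E F : Type*} [NormedAddCommGroup E] [InnerProductSpace ℝ E] [FiniteDimensional ℝ E]
  [MeasurableSpace E] [BorelSpace E] [NormedAddCommGroup F] [InnerProductSpace ℝ F]
  [FiniteDimensional ℝ F] [MeasurableSpace F] [BorelSpace F]

lemma law1 (w : E) (hw : ‖w‖ = 1) :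
    (stdGaussian E).map (fun g => ⟪w, g⟫) = gaussianReal 0 1 := by
  have h := IsGaussian.map_eq_gaussianReal (μ := stdGaussian E) (innerSL ℝ w)
  rw [integral_strongDual_stdGaussian, variance_dual_stdGaussian, innerSL_apply_norm, hw] at h
  simpa using h

lemma law2 (u v : E) (u' v' : F) (hu : ‖u‖ = ‖u'‖) (hv : ‖v‖ = ‖v'‖) (h : ⟪u, v⟫ = ⟪u', v'⟫) :
    (stdGaussian E).map (fun g => (⟪u, g⟫, ⟪v, g⟫)) =
      (stdGaussian F).map (fun g => (⟪u', g⟫, ⟪v', g⟫)) := by
  apply Measure.ext_of_charFunDual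
  ext L
  have e1 : ∀ x y : ℝ, L (x, y) = L (1, 0) * x + L (0, 1) * y := by
    intro x y
    have : (x, y) = x • ((1 : ℝ), (0 : ℝ)) + y • ((0 : ℝ), (1 : ℝ)) := by simp
    rw [this, map_add, map_smul, map_smul]; simp [mul_comm]
  have a1 : L.comp ((innerSL ℝ u).prod (innerSL ℝ v)) =
      innerSL ℝ (L (1, 0) • u + L (0, 1) • v) := by
    ext g; simp [e1 ⟪u, g⟫]
  have a2 : L.comp ((innerSL ℝ u').prod (innerSL ℝ v')) =
      innerSL ℝ (L (1, 0) • u' + L (0, 1) • v') := by
    ext g; simp [e1 ⟪u', g⟫]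
  have b1 := charFunDual_map (μ := stdGaussian E) ((innerSL ℝ u).prod (innerSL ℝ v)) L
  have b2 := charFunDual_map (μ := stdGaussian F) ((innerSL ℝ u').prod (innerSL ℝ v')) L
  refine b1.trans (Eq.trans ?_ b2.symm)
  rw [a1, a2, charFunDual_stdGaussian, charFunDual_stdGaussian, innerSL_apply_norm,
    innerSL_apply_norm]
  have : ‖L (1, 0) • u + L (0, 1) • v‖ ^ 2 = ‖L (1, 0) • u' + L (0, 1) • v'‖ ^ 2 := by
    simp only [norm_add_sq_real, norm_smul, inner_smul_left, inner_smul_right, hu, hv, h]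
  rw [← Complex.ofReal_pow, ← Complex.ofReal_pow, this]

lemma abs_gauss : ∫ x, |x| ∂(gaussianReal 0 1) = √(2 / π) := by
  rw [integral_gaussianReal_eq_integral_smul one_ne_zero]
  have e : ∀ x : ℝ, gaussianPDFReal 0 1 x • |x| =
      (fun t => (√(2 * π))⁻¹ * (t ^ (1 : ℝ) * exp (-(1 / 2) * t ^ (2 : ℝ)))) |x| := by
    intro x
    simp only [gaussianPDFReal, smul_eq_mul, NNReal.coe_one, mul_one, sub_zero, rpow_one,
      rpow_two, sq_abs]
    rw [show -x ^ 2 / 2 = -(1 / 2) * x ^ 2 by ring]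
    ring
  simp_rw [e]
  rw [integral_comp_abs (f := fun t => (√(2 * π))⁻¹ * (t ^ (1 : ℝ) * exp (-(1 / 2) * t ^ (2 : ℝ)))),
    integral_const_mul, integral_rpow_mul_exp_neg_mul_rpow (by norm_num) (by norm_num)
    (by norm_num)]
  norm_num
  have hp := pi_pos
  rw [eq_div_iff (by positivity)]
  have h2 : √2 * √2 = 2 := mul_self_sqrt (by norm_num)
  field_simp
  nlinarith

lemma int_inner (w : E) : Integrable (fun g => ⟪w, g⟫) (stdGaussian E) :=
  IsGaussian.integrable_id.const_inner w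

lemma abs_inner (w : E) : ∫ g, |⟪w, g⟫| ∂(stdGaussian E) = √(2 / π) * ‖w‖ := by
  by_cases h : w = 0
  · simp [h]
  have h0 : 0 < ‖w‖ := norm_pos_iff.2 h
  have h1 : ‖‖w‖⁻¹ • w‖ = 1 := by rw [norm_smul, norm_inv, norm_norm]; field_simp
  have := abs_gauss
  rw [← law1 _ h1, integral_map (by fun_prop) (by fun_prop)] at this
  simp only [inner_smul_left, conj_trivial, abs_mul, abs_inv, abs_norm] at this
  rw [integral_const_mul] at this
  rw [← this]; field_simp

end gauss

/-- sign with values in plus or minus one -/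
noncomputable def sg (x : ℝ) : ℝ := if 0 ≤ x then 1 else -1

lemma sg_meas : Measurable sg :=
  Measurable.ite (measurableSet_le measurable_const measurable_id) measurable_const
    measurable_const

lemma sg_abs (x : ℝ) : |sg x| = 1 := by unfold sg; split_ifs <;> simp

lemma sg_pos {x : ℝ} (h : 0 < x) : sg x = 1 := if_pos h.le
lemma sg_neg {x : ℝ} (h : x < 0) : sg x = -1 := if_neg (not_le.2 h)
lemma sg_mul {r : ℝ} (h : 0 < r) (x : ℝ) : sg (r * x) = sg x := by
  unfold sg; simp only [mul_nonneg_iff_of_pos_left h]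

lemma int_const {a b c : ℝ} {f : ℝ → ℝ} (hab : a ≤ b) (h : ∀ x ∈ Set.Ioo a b, f x = c) :
    ∫ x in a..b, f x = (b - a) * c := by
  rw [intervalIntegral.integral_of_le hab, integral_Ioc_eq_integral_Ioo,
    setIntegral_congr_fun measurableSet_Ioo h]
  simp [hab]

lemma cos_neg' {x : ℝ} (h1 : π / 2 < x) (h2 : x < 3 * π / 2) : cos x < 0 :=
  cos_neg_of_pi_div_two_lt_of_lt h1 (by linarith)

lemma sg_int (β φ : ℝ) (h0 : 0 ≤ β) (h1 : β ≤ π) :
    ∫ θ in (0 : ℝ)..2 * π, sg (cos (θ - φ)) * sg (cos (θ - φ - β)) = 2 * π - 4 * β := by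
  have hp : Periodic (fun θ => sg (cos θ) * sg (cos (θ - β))) (2 * π) := by
    intro θ
    simp only [cos_add_two_pi, show θ + 2 * π - β = θ - β + 2 * π by ring]
  have hi : ∀ a b, IntervalIntegrable (fun θ => sg (cos θ) * sg (cos (θ - β))) volume a b := by
    intro a b
    refine (intervalIntegrable_const (c := (1 : ℝ))).mono_fun
      (((sg_meas.comp (by fun_prop)).mul (sg_meas.comp (by fun_prop))).aestronglyMeasurable)
      (Filter.Eventually.of_forall fun θ => ?_)
    simp [sg_abs]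
  rw [intervalIntegral.integral_comp_sub_right (fun θ => sg (cos θ) * sg (cos (θ - β))) φ,
    show 2 * π - φ = 0 - φ + 2 * π by ring, hp.intervalIntegral_add_eq _ (-(π / 2)),
    ← intervalIntegral.integral_add_adjacent_intervals (hi _ (β - π / 2)) (hi _ _),
    ← intervalIntegral.integral_add_adjacent_intervals (hi (β - π / 2) (π / 2)) (hi _ _),
    ← intervalIntegral.integral_add_adjacent_intervals (hi (π / 2) (β + π / 2)) (hi _ _),
    int_const (c := -1) (by linarith), int_const (c := 1) (by linarith),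
    int_const (c := -1) (by linarith), int_const (c := 1) (by linarith)]
  · ring
  · intro x hx
    rw [sg_neg (cos_neg' (by linarith [hx.1]) (by linarith [hx.2])),
      sg_neg (cos_neg' (by linarith [hx.1]) (by linarith [hx.2]))]; ring
  · intro x hx
    rw [sg_neg (cos_neg' (by linarith [hx.1]) (by linarith [hx.2])),
      sg_pos (cos_pos_of_mem_Ioo ⟨by linarith [hx.1], by linarith [hx.2]⟩)]; ring
  · intro x hx
    rw [sg_pos (cos_pos_of_mem_Ioo ⟨by linarith [hx.1], by linarith [hx.2]⟩),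
      sg_pos (cos_pos_of_mem_Ioo ⟨by linarith [hx.1], by linarith [hx.2]⟩)]; ring
  · intro x hx
    rw [sg_pos (cos_pos_of_mem_Ioo ⟨by linarith [hx.1], by linarith [hx.2]⟩),
      ← cos_add_two_pi (x - β), sg_neg (cos_neg' (by linarith [hx.1]) (by linarith [hx.2]))]; ring

lemma abs_cos_int (φ : ℝ) : ∫ θ in (0 : ℝ)..2 * π, |cos (θ - φ)| = 4 := by
  have hp : Periodic (fun θ => |cos θ|) (2 * π) := fun θ => by simp only [cos_add_two_pi]
  have hi : ∀ a b, IntervalIntegrable (fun θ => |cos θ|) volume a b := fun a b =>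
    Continuous.intervalIntegrable (by fun_prop) _ _
  have := pi_pos
  rw [intervalIntegral.integral_comp_sub_right (fun θ => |cos θ|) φ,
    show 2 * π - φ = 0 - φ + 2 * π by ring, hp.intervalIntegral_add_eq _ (-(π / 2)),
    ← intervalIntegral.integral_add_adjacent_intervals (hi _ (π / 2)) (hi _ _),
    intervalIntegral.integral_congr (g := cos) (a := -(π / 2)),
    intervalIntegral.integral_congr (g := fun θ => -cos θ) (a := π / 2)]
  · rw [intervalIntegral.integral_neg, integral_cos, integral_cos, sin_add_two_pi]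
    simp; norm_num
  · intro x hx
    rw [Set.uIcc_of_le (by linarith)] at hx
    exact abs_of_nonpos (cos_nonpos_of_pi_div_two_le_of_le hx.1 (by linarith [hx.2]))
  · intro x hx
    rw [Set.uIcc_of_le (by linarith)] at hx
    exact abs_of_nonneg (cos_nonneg_of_mem_Icc hx)

/-- the unit vector of angle `θ` -/
noncomputable def cs (θ : ℝ) : ℂ := ⟨cos θ, sin θ⟩

lemma cs_norm (θ : ℝ) : ‖cs θ‖ = 1 := by
  rw [Complex.norm_eq_sqrt_sq_add_sq]; simp [cs]

lemma cs_inner (θ : ℝ) (z : ℂ) : ⟪cs θ, z⟫ = ‖z‖ * cos (θ - z.arg) := by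
  rw [cos_sub, mul_add, mul_left_comm, Complex.norm_mul_cos_arg, mul_left_comm,
    Complex.norm_mul_sin_arg]
  simp [cs, Complex.inner]; ring

lemma cs_cont : Continuous cs := by
  have : cs = fun θ => (cos θ : ℂ) + sin θ * Complex.I := by
    funext θ; apply Complex.ext <;> simp [cs, Complex.cos_ofReal_re, Complex.sin_ofReal_re]
  rw [this]; fun_prop

theorem groth {E : Type*} [NormedAddCommGroup E] [InnerProductSpace ℝ E] [FiniteDimensional ℝ E]
    [MeasurableSpace E] [BorelSpace E] (u v : E) (hu : ‖u‖ = 1) (hv : ‖v‖ = 1) :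
    ∫ g, sg ⟪u, g⟫ * sg ⟪v, g⟫ ∂(stdGaussian E) = 2 / π * arcsin ⟪u, v⟫ := by
  have hs : |⟪u, v⟫| ≤ 1 := by simpa [hu, hv] using abs_real_inner_le_norm u v
  set β := arccos ⟪u, v⟫ with hβ
  have hm : Measurable fun z : ℝ × ℝ => sg z.1 * sg z.2 :=
    (sg_meas.comp measurable_fst).mul (sg_meas.comp measurable_snd)
  have h1 : ∀ θ, ∫ g, sg ⟪u, g⟫ * sg ⟪v, g⟫ ∂(stdGaussian E) =
      ∫ z, sg ⟪cs θ, z⟫ * sg ⟪cs (θ - β), z⟫ ∂(stdGaussian ℂ) := by
    intro θ
    have := congrArg (fun m => ∫ z, sg z.1 * sg z.2 ∂m) (law2 u v (cs θ) (cs (θ - β))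
      (by rw [hu, cs_norm]) (by rw [hv, cs_norm]) (by
        rw [← cos_arccos (abs_le.1 hs).1 (abs_le.1 hs).2, ← hβ]
        nth_rw 1 [show β = θ - (θ - β) by ring]
        rw [cos_sub]
        simp [cs, Complex.inner]; ring))
    rwa [integral_map (by fun_prop) hm.aestronglyMeasurable,
      integral_map (by fun_prop) hm.aestronglyMeasurable] at this
  have : IsFiniteMeasure (volume.restrict (Set.uIoc 0 (2 * π))) :=
    isFiniteMeasure_restrict.2 measure_Ioc_lt_top.ne
  have h2 := intervalIntegral_integral_swap (μ := stdGaussian ℂ) (a := 0) (b := 2 * π)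
    (f := fun θ z => sg ⟪cs θ, z⟫ * sg ⟪cs (θ - β), z⟫) (by
      refine Integrable.of_bound (Measurable.aestronglyMeasurable ?_) 1
        (Filter.Eventually.of_forall fun x => by simp [uncurry, sg_abs])
      have := cs_cont
      exact (sg_meas.comp (Continuous.measurable (by fun_prop))).mul
        (sg_meas.comp (Continuous.measurable (by fun_prop))))
  have h0 : ∀ᵐ z ∂(stdGaussian ℂ), z ≠ 0 := by
    have : ∀ᵐ x ∂(gaussianReal 0 1), x ≠ 0 := by
      have := nullSingletonClass_gaussianReal (μ := 0) (v := 1) one_ne_zero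
      simp [ae_iff]
    rw [← law1 (1 : ℂ) norm_one] at this
    filter_upwards [ae_of_ae_map (by fun_prop) this] with z hz
    rintro rfl; simp at hz
  have h3 : ∫ z, (∫ θ in (0 : ℝ)..2 * π, sg ⟪cs θ, z⟫ * sg ⟪cs (θ - β), z⟫) ∂(stdGaussian ℂ) =
      ∫ _, (2 * π - 4 * β) ∂(stdGaussian ℂ) := by
    refine integral_congr_ae ?_
    filter_upwards [h0] with z hz
    simp only [cs_inner, sg_mul (norm_pos_iff.2 hz), sub_right_comm _ β]
    exact sg_int β _ (arccos_nonneg _) (arccos_le_pi _)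
  simp only [← h1] at h2
  rw [h3] at h2
  simp only [intervalIntegral.integral_const, sub_zero, smul_eq_mul, integral_const,
    probReal_univ, one_mul] at h2
  have := pi_pos
  rw [arcsin_eq_pi_div_two_sub_arccos, ← hβ]
  field_simp
  linarith

end Pool.Agent.H.MP_aeebd3_an
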