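import Pool.Agent.H.MP_aeebd3_an.A

set_option autoImplicit false
set_option linter.unusedSectionVars false

namespace Pool.Agent.H.MP_aeebd3_an

open MeasureTheory ProbabilityTheory Real Function Matrix
open scoped RealInnerProductSpace MatrixOrder ComplexConjugate

lemma gram_of_psd {ι : Type} [Fintype ι] (W : Matrix ι ι ℝ) (hW : W.PosSemidef) :
    ∃ y : ι → EuclideanSpace ℝ ι, ∀ a b, ⟪y a, y b⟫ = W a b := by
  classical
  obtain ⟨B, rfl⟩ := CStarAlgebra.nonneg_iff_eq_star_mul_self.mp hW.nonneg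
  refine ⟨fun a => WithLp.toLp 2 fun k => B k a, fun a b => ?_⟩
  simp [PiLp.inner_apply, Matrix.mul_apply, mul_comm]

lemma pow_psd {ι : Type} [Fintype ι] (G : Matrix ι ι ℝ) (hG : G.PosSemidef) (k : ℕ)
    (x : ι → ℝ) : 0 ≤ ∑ a, ∑ b, x a * x b * G a b ^ (k + 1) := by
  have : (Matrix.of fun a b => G a b ^ (k + 1)).PosSemidef := by
    induction k with
    | zero => rwa [show (Matrix.of fun a b => G a b ^ (0 + 1)) = G by ext a b; simp]
    | succ k ih =>
      have := ih.hadamard hG
      rwa [show (Matrix.of fun a b => G a b ^ (k + 1)) ⊙ G =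
        Matrix.of fun a b => G a b ^ (k + 1 + 1) by ext a b; simp [pow_succ]] at this
  have h := this.dotProduct_mulVec_nonneg x
  simp only [dotProduct, mulVec, star_trivial, of_apply, Finset.mul_sum] at h
  refine h.trans_eq (Finset.sum_congr rfl fun a _ => Finset.sum_congr rfl fun b _ => by ring)

theorem krivine {m n H : Type} [Fintype m] [Fintype n] [NormedAddCommGroup H]
    [InnerProductSpace ℝ H] (u : m → H) (v : n → H) (hu : ∀ i, ‖u i‖ = 1) (hv : ∀ j, ‖v j‖ = 1)
    (A : m → n → ℝ) (M : ℝ) (hM : ∀ (p : m → ℝ) (q : n → ℝ), (∀ i, |p i| = 1) →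
      (∀ j, |q j| = 1) → ∑ i, ∑ j, A i j * p i * q j ≤ M) :
    ∑ i, ∑ j, A i j * ⟪u i, v j⟫ ≤ π / (2 * arsinh 1) * M := by
  set c := arsinh 1
  have c0 : 0 < c := arsinh_pos_iff.2 one_pos
  have c1 : c ≤ 1 := (self_le_sinh_iff.2 c0.le).trans_eq (sinh_arsinh 1)
  let G := gram ℝ (Sum.elim u v)
  let s : ℕ → m ⊕ n → ℝ := fun k => Sum.elim (fun _ => 1) fun _ => (-1) ^ k
  let W : Matrix (m ⊕ n) (m ⊕ n) ℝ := fun a b =>
    if a.isLeft = b.isLeft then sinh (c * G a b) else sin (c * G a b)
  have hs : ∀ a b, HasSum (fun k => s k a * s k b * ((c * G a b) ^ (2 * k + 1) /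
      ((2 * k + 1).factorial : ℝ))) (W a b) := by
    rintro (a | a) (b | b)
    · simpa [s, W] using hasSum_sinh _
    · simpa [s, W, mul_div_assoc] using hasSum_sin _
    · simpa [s, W, mul_div_assoc] using hasSum_sin _
    · simpa [s, W, ← mul_pow] using hasSum_sinh _
  have hW : W.PosSemidef := by
    refine .of_dotProduct_mulVec_nonneg ?_ fun x => ?_
    · ext a b
      simp only [W, G, conjTranspose_apply, star_trivial, gram_apply, real_inner_comm, eq_comm]
    · have := hasSum_sum (s := Finset.univ) fun a _ => hasSum_sum (s := Finset.univ) fun b _ =>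
        (hs a b).mul_left (x a * x b)
      refine (this.nonneg fun k => ?_).trans_eq ?_
      · have h := mul_nonneg (show 0 ≤ c ^ (2 * k + 1) / ((2 * k + 1).factorial : ℝ) by positivity)
          (pow_psd G (posSemidef_gram _ _) (2 * k) fun a => x a * s k a)
        simp only [Finset.mul_sum] at h
        refine h.trans_eq (Finset.sum_congr rfl fun a _ => Finset.sum_congr rfl fun b _ => ?_)
        rw [mul_pow]; ring
      · simp only [dotProduct, mulVec, star_trivial, Finset.mul_sum]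
        exact Finset.sum_congr rfl fun a _ => Finset.sum_congr rfl fun b _ => by ring
  obtain ⟨y, hy⟩ := gram_of_psd W hW
  have hn : ∀ a, ‖y a‖ = 1 := by
    intro a
    have h1 : G a a = 1 := by
      rcases a with a | a <;> simp [G, hu, hv]
    have := hy a a
    simp only [W, if_true, h1, mul_one, c, sinh_arsinh, real_inner_self_eq_norm_sq] at this
    nlinarith [norm_nonneg (y a)]
  have hi : ∀ a b, Integrable (fun g => sg ⟪y a, g⟫ * sg ⟪y b, g⟫)
      (stdGaussian (EuclideanSpace ℝ (m ⊕ n))) := fun a b =>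
    Integrable.of_bound (Measurable.aestronglyMeasurable ((sg_meas.comp (by fun_prop)).mul
      (sg_meas.comp (by fun_prop)))) 1 (Filter.Eventually.of_forall fun x => by simp [sg_abs])
  have key : ∫ g, ∑ i, ∑ j, A i j * (sg ⟪y (.inl i), g⟫ * sg ⟪y (.inr j), g⟫)
      ∂(stdGaussian (EuclideanSpace ℝ (m ⊕ n))) = ∑ i, ∑ j, A i j * (2 / π * (c * ⟪u i, v j⟫)) := by
    rw [integral_finsetSum _ fun i _ => integrable_finsetSum _ fun j _ => (hi _ _).const_mul _]
    refine Finset.sum_congr rfl fun i _ => ?_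
    rw [integral_finsetSum _ fun j _ => (hi _ _).const_mul _]
    refine Finset.sum_congr rfl fun j _ => ?_
    have ht : |⟪u i, v j⟫| ≤ 1 := by simpa [hu, hv] using abs_real_inner_le_norm (u i) (v j)
    have := pi_gt_three
    rw [integral_const_mul, groth _ _ (hn _) (hn _), hy]
    simp only [W, G, Sum.isLeft_inl, Sum.isLeft_inr, Bool.true_eq_false, if_false, gram_apply,
      Sum.elim_inl, Sum.elim_inr]
    rw [arcsin_sin (by nlinarith [abs_le.1 ht]) (by nlinarith [abs_le.1 ht])]
  have hle := integral_mono (μ := stdGaussian (EuclideanSpace ℝ (m ⊕ n)))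
    (integrable_finsetSum _ fun i _ => integrable_finsetSum _ fun j _ =>
      (hi (.inl i) (.inr j)).const_mul (A i j)) (integrable_const M) fun g => by
        simpa only [mul_assoc] using hM _ _ (fun i => sg_abs ⟪y (.inl i), g⟫)
          (fun j => sg_abs ⟪y (.inr j), g⟫)
  rw [key] at hle
  simp only [integral_const, probReal_univ, one_smul] at hle
  have := pi_pos
  refine le_trans (le_of_eq ?_) (mul_le_mul_of_nonneg_left hle (by positivity))
  simp only [Finset.mul_sum]
  refine Finset.sum_congr rfl fun i _ => Finset.sum_congr rfl fun j _ => ?_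
  field_simp

lemma ball1 {𝕜 m : Type} [RCLike 𝕜] [Fintype m] (c : m → 𝕜) (M : ℝ)
    (h : ∀ p : m → 𝕜, (∀ i, ‖p i‖ = 1) → ‖∑ i, c i * p i‖ ≤ M) (p : m → 𝕜) (hp : ∀ i, ‖p i‖ ≤ 1) :
    ‖∑ i, c i * p i‖ ≤ M := by
  choose e he he' using fun i => RCLike.exists_norm_eq_mul_self (c i)
  refine le_trans ?_ (h e he)
  simp only [mul_comm _ (e _), ← he', ← RCLike.ofReal_sum, RCLike.norm_ofReal]
  refine (norm_sum_le _ _).trans (le_trans (Finset.sum_le_sum fun i _ => ?_) (le_abs_self _))
  rw [norm_mul]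
  exact mul_le_of_le_one_right (norm_nonneg _) (hp i)

lemma ball2 {𝕜 m n : Type} [RCLike 𝕜] [Fintype m] [Fintype n] (A : m → n → 𝕜) (M : ℝ)
    (h : ∀ (p : m → 𝕜) (q : n → 𝕜), (∀ i, ‖p i‖ = 1) → (∀ j, ‖q j‖ = 1) →
      ‖∑ i, ∑ j, A i j * p i * q j‖ ≤ M) (p : m → 𝕜) (q : n → 𝕜) (hp : ∀ i, ‖p i‖ ≤ 1)
    (hq : ∀ j, ‖q j‖ ≤ 1) : ‖∑ i, ∑ j, A i j * p i * q j‖ ≤ M := by
  have e1 : ∀ (p : m → 𝕜) (q : n → 𝕜), ∑ i, ∑ j, A i j * p i * q j =
      ∑ i, (∑ j, A i j * q j) * p i := fun p q => by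
    simp only [Finset.sum_mul, mul_right_comm]
  have e2 : ∀ (p : m → 𝕜) (q : n → 𝕜), ∑ i, ∑ j, A i j * p i * q j =
      ∑ j, (∑ i, A i j * p i) * q j := fun p q => by
    rw [Finset.sum_comm]; simp only [Finset.sum_mul]
  rw [e1]
  refine ball1 _ M (fun p hp => ?_) p hp
  rw [← e1, e2]
  exact ball1 _ M (fun q hq => e2 p q ▸ h p q hp hq) q hq

/-- four directions -/
noncomputable def om : Fin 4 → ℂ := ![1, ⟨√2 / 2, √2 / 2⟩, Complex.I, ⟨-(√2 / 2), √2 / 2⟩]

lemma r2 : √2 * √2 = 2 := mul_self_sqrt (by norm_num)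

lemma om_mul (k : Fin 4) : om k * conj (om k) = 1 := by
  have := r2
  fin_cases k <;> apply Complex.ext <;> simp [om] <;> nlinarith

lemma om_norm (k : Fin 4) : ‖om k‖ = 1 := by
  have := congrArg norm (om_mul k)
  rw [norm_mul, RCLike.norm_conj, norm_one] at this
  nlinarith [norm_nonneg (om k)]

lemma om_sq : ∑ k, om k * om k = 0 := by
  have := r2
  apply Complex.ext <;> simp [om, Fin.sum_univ_four]

lemma om_bound (p : Fin 4 → ℝ) (hp : ∀ k, |p k| = 1) :
    ‖∑ k, om k * p k‖ ≤ √(4 + 2 * √2) := by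
  have := r2
  rw [Complex.norm_eq_sqrt_sq_add_sq]
  refine sqrt_le_sqrt ?_
  have h0 := sqrt_nonneg 2
  rcases (abs_eq zero_le_one).1 (hp 0) with a | a <;>
  rcases (abs_eq zero_le_one).1 (hp 1) with b | b <;>
  rcases (abs_eq zero_le_one).1 (hp 2) with c | c <;>
  rcases (abs_eq zero_le_one).1 (hp 3) with d | d <;>
  simp [om, Fin.sum_univ_four, a, b, c, d] <;> nlinarith

lemma om_sum (a t : ℂ) : ∑ k, ∑ l, (a * om k * conj (om l)).re * (conj (om k) * (om l * t)).re =
    8 * (a * t).re := by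
  have e : ∀ k l, (a * om k * conj (om l)).re * (conj (om k) * (om l * t)).re =
      (a * t).re / 2 + (a * conj t * conj (om l * om l) * (om k * om k)).re / 2 := by
    intro k l
    have h1 : ∀ x y : ℂ, x.re * y.re = (x * y).re / 2 + (x * conj y).re / 2 := by
      intro x y; simp; ring
    rw [h1]
    congr 3
    · linear_combination (a * t * (om l * conj (om l))) * om_mul k + a * t * om_mul l
    · simp only [map_mul, Complex.conj_conj]; ring
  simp only [e, Finset.sum_add_distrib]
  rw [Finset.sum_comm (f := fun k l => (a * conj t * conj (om l * om l) * (om k * om k)).re / 2)]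
  simp only [← Finset.sum_div, ← Complex.re_sum, ← Finset.mul_sum, om_sq]
  simp; ring

theorem krivineC {m n H : Type} [Fintype m] [Fintype n] [NormedAddCommGroup H]
    [InnerProductSpace ℂ H] (u : m → H) (v : n → H) (hu : ∀ i, ‖u i‖ = 1) (hv : ∀ j, ‖v j‖ = 1)
    (A : m → n → ℂ) (M : ℝ) (hM : ∀ (p : m → ℂ) (q : n → ℂ), (∀ i, ‖p i‖ = 1) →
      (∀ j, ‖q j‖ = 1) → ‖∑ i, ∑ j, A i j * p i * q j‖ ≤ M) :
    (∑ i, ∑ j, A i j * inner ℂ (u i) (v j)).re ≤
      π / (2 * arsinh 1) * (4 + 2 * √2) / 8 * M := by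
  let _ := InnerProductSpace.rclikeToReal ℂ H
  have R0 : 0 < √(4 + 2 * √2) := by positivity
  have R2 : √(4 + 2 * √2) * √(4 + 2 * √2) = 4 + 2 * √2 := mul_self_sqrt (by positivity)
  have hb := om_bound
  generalize √(4 + 2 * √2) = R at R0 R2 hb
  have h := krivine (fun a : m × Fin 4 => om a.2 • u a.1) (fun b : n × Fin 4 => om b.2 • v b.1)
    (fun a => by rw [norm_smul, om_norm, hu, mul_one])
    (fun a => by rw [norm_smul, om_norm, hv, mul_one])
    (fun a b => (A a.1 b.1 * om a.2 * conj (om b.2)).re) ((4 + 2 * √2) * M) (by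
      intro p q hp hq
      have := ball2 A M hM (fun i => (∑ k, om k * p (i, k)) / (R : ℝ))
        (fun j => conj (∑ k, om k * q (j, k)) / (R : ℝ))
        (fun i => by
          rw [norm_div, Complex.norm_real, Real.norm_of_nonneg R0.le, div_le_one R0]
          exact hb _ fun k => hp _)
        (fun j => by
          rw [norm_div, Complex.norm_real, Real.norm_of_nonneg R0.le, div_le_one R0,
            RCLike.norm_conj]
          exact hb _ fun k => hq _)
      refine le_trans (le_of_eq ?_) (mul_le_mul_of_nonneg_left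
        ((Complex.re_le_norm _).trans this) (by positivity))
      rw [← R2, ← Complex.re_ofReal_mul]
      simp only [Fintype.sum_prod_type, Finset.mul_sum, Complex.re_sum]
      refine Finset.sum_congr rfl fun i _ => ?_
      rw [Finset.sum_comm]
      refine Finset.sum_congr rfl fun j _ => ?_
      simp only [← Complex.re_mul_ofReal, ← Complex.re_sum]
      congr 1
      have : (R : ℂ) ≠ 0 := by exact_mod_cast R0.ne'
      push_cast
      field_simp
      simp only [map_sum, map_mul, Complex.conj_ofReal, Finset.mul_sum, Finset.sum_mul]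
      rw [Finset.sum_comm]
      exact Finset.sum_congr rfl fun _ _ => Finset.sum_congr rfl fun _ _ => by ring)
  have e : ∀ (k l : Fin 4) (x y : H), ⟪om k • x, om l • y⟫ =
      (conj (om k) * (om l * inner ℂ x y)).re := fun k l x y => by
    rw [← inner_smul_right, ← inner_smul_left]; rfl
  simp only [e, Fintype.sum_prod_type] at h
  have e2 : 8 * (∑ i, ∑ j, A i j * inner ℂ (u i) (v j)).re = ∑ i, ∑ k, ∑ j, ∑ l,
      (A i j * om k * conj (om l)).re * (conj (om k) * (om l * inner ℂ (u i) (v j))).re := by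
    simp only [Complex.re_sum, Finset.mul_sum, ← om_sum]
    exact Finset.sum_congr rfl fun _ _ => Finset.sum_comm
  linarith

lemma arsinh_gt : 0.87 < arsinh 1 := by
  rw [← sinh_lt_sinh, sinh_arsinh, sinh_eq]
  have h1 := exp_one_lt_d9
  have h2 := quadratic_le_exp_of_nonneg (x := 0.13) (by norm_num)
  have h3 : exp 0.87 * exp 0.13 = exp 1 := by rw [← exp_add]; norm_num
  have h4 : exp 0.87 * exp (-0.87) = 1 := by rw [← exp_add]; norm_num
  have h5 := exp_pos 0.87
  have h6 : exp 0.87 < 2.39 := by nlinarith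
  have h7 := exp_pos (-0.87)
  nlinarith

end Pool.Agent.H.MP_aeebd3_an
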