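import Pool.Agent.H.MP_aeebd3_an.B

set_option autoImplicit false
set_option linter.unusedSectionVars false

namespace Pool.Agent.H.MP_aeebd3_an

open MeasureTheory ProbabilityTheory Real Function Matrix Filter Topology
open scoped ComplexConjugate ComplexOrder

/-- there is an example with ratio larger than `r` -/
def Ex (𝕜 : Type) [RCLike 𝕜] (r : ℝ) : Prop :=
  ∃ (k : ℕ) (S B : Matrix (Fin k) (Fin k) 𝕜) (M : ℝ), S.PosSemidef ∧ (∀ i, S i i = 1) ∧ 0 ≤ M ∧
    (∀ x : Fin k → 𝕜, (∀ i, ‖x i‖ = 1) → ‖(Bᴴ * vecMulVec x (star x)).trace‖ ≤ M) ∧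
    r * M < ‖(Bᴴ * S).trace‖

section fin
variable {𝕜 E : Type} [RCLike 𝕜] [NormedAddCommGroup E] [InnerProductSpace 𝕜 E]
  [FiniteDimensional 𝕜 E]

lemma welch {ι : Type} [Fintype ι] (a : ι → ℝ) (e : ι → E) (he : ∀ i, ‖e i‖ = 1) :
    (∑ i, a i) ^ 2 ≤ Module.finrank 𝕜 E * ∑ i, ∑ j, a i * a j * ‖inner 𝕜 (e i) (e j)‖ ^ 2 := by
  let b := stdOrthonormalBasis 𝕜 E
  let T : ι → EuclideanSpace 𝕜 (Fin (Module.finrank 𝕜 E) × Fin (Module.finrank 𝕜 E)) :=
    fun i => WithLp.toLp 2 fun z => inner 𝕜 (b z.1) (e i) * inner 𝕜 (e i) (b z.2)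
  let J : EuclideanSpace 𝕜 (Fin (Module.finrank 𝕜 E) × Fin (Module.finrank 𝕜 E)) :=
    WithLp.toLp 2 fun z => if z.1 = z.2 then 1 else 0
  have h1 : ∀ i, inner 𝕜 J (T i) = 1 := by
    intro i
    have := b.sum_inner_mul_inner (e i) (e i)
    rw [inner_self_eq_norm_sq_to_K, he] at this
    simp only [PiLp.inner_apply, Fintype.sum_prod_type, J, T, RCLike.inner_apply]
    simpa [apply_ite, mul_comm] using this
  have h2 : ‖J‖ ^ 2 = Module.finrank 𝕜 E := by
    rw [EuclideanSpace.norm_sq_eq, Fintype.sum_prod_type]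
    simp [J, apply_ite]
  have h3 : ∀ i j, inner 𝕜 (T i) (T j) = ((‖inner 𝕜 (e i) (e j)‖ ^ 2 : ℝ) : 𝕜) := by
    intro i j
    push_cast
    rw [← RCLike.mul_conj, inner_conj_symm, ← b.sum_inner_mul_inner (e i) (e j),
      ← b.sum_inner_mul_inner (e j) (e i), Finset.sum_mul_sum]
    simp only [PiLp.inner_apply, Fintype.sum_prod_type, T, RCLike.inner_apply, map_mul,
      inner_conj_symm]
    exact Finset.sum_congr rfl fun _ _ => Finset.sum_congr rfl fun _ _ => by ring
  have h4 := norm_inner_le_norm (𝕜 := 𝕜) J (∑ i, (a i : 𝕜) • T i)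
  have h5 : ‖∑ i, (a i : 𝕜) • T i‖ ^ 2 = ∑ i, ∑ j, a i * a j * ‖inner 𝕜 (e i) (e j)‖ ^ 2 := by
    rw [← inner_self_eq_norm_sq (𝕜 := 𝕜)]
    simp only [sum_inner, inner_sum, inner_smul_left, inner_smul_right, h3, RCLike.conj_ofReal,
      ← RCLike.ofReal_mul, ← RCLike.ofReal_sum, RCLike.ofReal_re, Finset.mul_sum]
    rw [Finset.sum_comm]
    exact Finset.sum_congr rfl fun _ _ => Finset.sum_congr rfl fun _ _ => by ring
  simp only [inner_sum, inner_smul_right, h1, mul_one, ← RCLike.ofReal_sum,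
    RCLike.norm_ofReal] at h4
  rw [← h5, ← h2, ← mul_pow, ← sq_abs]
  gcongr

lemma finite_ex {k : ℕ} (hk : 0 < k) (a : Fin k → ℝ) (ha : ∀ i, 0 ≤ a i) (e : Fin k → E)
    (he : ∀ i, ‖e i‖ = 1) (κ ρ r : ℝ) (hκ : ∀ w, ∑ i, a i * ‖inner 𝕜 w (e i)‖ ≤ κ * ‖w‖)
    (ρ0 : 0 ≤ ρ) (hρ : ρ ≤ ∑ i, a i) (hd : 0 < Module.finrank 𝕜 E)
    (hr : r * (κ ^ 2 / 2) < ρ ^ 2 / Module.finrank 𝕜 E - κ ^ 2 / 2) : Ex 𝕜 r := by
  let B : Matrix (Fin k) (Fin k) 𝕜 := fun i j => (a i * a j : ℝ) * inner 𝕜 (e i) (e j) -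
    if i = j then ((κ ^ 2 / 2 / k : ℝ) : 𝕜) else 0
  have tr : ∀ X : Matrix (Fin k) (Fin k) 𝕜, (∀ i, X i i = 1) → (Bᴴ * X).trace =
      ∑ i, ∑ j, (a i * a j : ℝ) * (inner 𝕜 (e j) (e i) * X i j) - ((κ ^ 2 / 2 : ℝ) : 𝕜) := by
    intro X hX
    have : (k : 𝕜) ≠ 0 := by exact_mod_cast hk.ne'
    simp only [trace, diag, mul_apply, conjTranspose_apply, B, RCLike.star_def, map_sub, map_mul,
      RCLike.conj_ofReal, inner_conj_symm, sub_mul, Finset.sum_sub_distrib, apply_ite conj,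
      map_zero,
      ite_mul, zero_mul, Finset.sum_ite_eq', Finset.mem_univ, if_true, hX, mul_one, mul_assoc]
    rw [Finset.sum_comm]
    congr 1
    simp; field_simp
  refine ⟨k, gram 𝕜 e, B, κ ^ 2 / 2, posSemidef_gram _ _, fun i => ?_, by positivity,
    fun x hx => ?_, ?_⟩
  · simp [he]
  · rw [tr _ fun i => by simp [vecMulVec_apply, RCLike.mul_conj, hx]]
    set y := ∑ i, ((a i : 𝕜) * x i) • e i with hy
    have h1 : ∑ i, ∑ j, ((a i * a j : ℝ) : 𝕜) * (inner 𝕜 (e j) (e i) * vecMulVec x (star x) i j) =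
        ((‖y‖ ^ 2 : ℝ) : 𝕜) := by
      push_cast
      rw [← inner_self_eq_norm_sq_to_K]
      simp only [hy, sum_inner, inner_sum, inner_smul_left, inner_smul_right, vecMulVec_apply,
        map_mul, RCLike.conj_ofReal, Pi.star_apply, RCLike.star_def, Finset.mul_sum]
      exact Finset.sum_congr rfl fun _ _ => Finset.sum_congr rfl fun _ _ => by ring
    have h2 : ‖y‖ ^ 2 ≤ κ * ‖y‖ := by
      refine le_trans ?_ (hκ y)
      rw [← inner_self_eq_norm_sq (𝕜 := 𝕜)]
      refine (RCLike.re_le_norm _).trans ?_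
      nth_rw 2 [hy]
      rw [inner_sum]
      refine (norm_sum_le _ _).trans (le_of_eq (Finset.sum_congr rfl fun i _ => ?_))
      rw [inner_smul_right, norm_mul, norm_mul, hx, RCLike.norm_ofReal, abs_of_nonneg (ha i),
        mul_one]
    rw [h1, ← RCLike.ofReal_sub, RCLike.norm_ofReal, abs_le]
    constructor <;> nlinarith [norm_nonneg y, sq_nonneg (‖y‖ - κ)]
  · rw [tr _ fun i => by simp [he]]
    have h1 : ∀ i j, inner 𝕜 (e j) (e i) * gram 𝕜 e i j =
        ((‖inner 𝕜 (e i) (e j)‖ ^ 2 : ℝ) : 𝕜) := fun i j => by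
      rw [gram_apply, ← inner_conj_symm, RCLike.conj_mul]; push_cast; rfl
    simp only [h1, ← RCLike.ofReal_mul, ← RCLike.ofReal_sum, ← RCLike.ofReal_sub,
      RCLike.norm_ofReal]
    refine hr.trans_le (le_trans ?_ (le_abs_self _))
    have := welch (𝕜 := 𝕜) a e he
    gcongr
    rw [div_le_iff₀ (by exact_mod_cast hd), mul_comm]
    exact le_trans (by gcongr) this

lemma disc [MeasurableSpace E] [BorelSpace E] (P : Measure E) [IsProbabilityMeasure P]
    (hP : Integrable (fun x => x) P) (κ ρ r : ℝ) (hκ : ∀ w, ∫ g, ‖inner 𝕜 w g‖ ∂P ≤ κ * ‖w‖)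
    (ρ0 : 0 < ρ) (hρ : ρ ≤ ∫ g, ‖g‖ ∂P) (hd : 0 < Module.finrank 𝕜 E)
    (hr : r * (κ ^ 2 / 2) < ρ ^ 2 / Module.finrank 𝕜 E - κ ^ 2 / 2) : Ex 𝕜 r := by
  classical
  obtain ⟨δ, ⟨h1, h2⟩, δ0⟩ : ∃ δ : ℝ, (r * ((κ + δ) ^ 2 / 2) <
      (ρ - δ) ^ 2 / Module.finrank 𝕜 E - (κ + δ) ^ 2 / 2 ∧ δ < ρ) ∧ 0 < δ := by
    refine ((Eventually.and ?_ ?_).filter_mono (nhdsWithin_le_nhds (a := (0 : ℝ)) (s := Set.Ioi 0))
      |>.and self_mem_nhdsWithin).exists
    · exact ContinuousAt.eventually_lt (by fun_prop) (by fun_prop) (by simpa using hr)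
    · exact gt_mem_nhds ρ0
  obtain ⟨f, hf, hf'⟩ := (memLp_one_iff_integrable.2 hP).exists_simpleFunc_eLpNorm_sub_lt
    ENNReal.one_ne_top (ENNReal.ofReal_pos.2 δ0).ne'
  rw [memLp_one_iff_integrable] at hf'
  rw [eLpNorm_one_eq_lintegral_enorm, ← ofReal_integral_norm_eq_lintegral_enorm (hP.sub hf'),
    ENNReal.ofReal_lt_ofReal_iff δ0] at hf
  obtain ⟨e0, he0⟩ : ∃ e0 : E, ‖e0‖ = 1 := ⟨_, (stdOrthonormalBasis 𝕜 E).norm_eq_one ⟨0, hd⟩⟩
  let ev : E → E := fun v => if v = 0 then e0 else ((‖v‖⁻¹ : ℝ) : 𝕜) • v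
  have hev : ∀ v, ‖ev v‖ = 1 := fun v => by
    by_cases h : v = 0
    · simp [ev, h, he0]
    · simp [ev, h, norm_smul]
  have hev' : ∀ w v, ‖v‖ * ‖inner 𝕜 w (ev v)‖ = ‖inner 𝕜 w v‖ := fun w v => by
    by_cases h : v = 0
    · simp [h]
    · simp [ev, h, inner_smul_right]
  have hs : ∀ F : E → ℝ, F 0 = 0 → ∫ x, F (f x) ∂P = ∑ i : Fin f.range.card,
      P.real (f ⁻¹' {(f.range.equivFin.symm i : E)}) * F (f.range.equivFin.symm i) := by
    intro F hF
    rw [f.range.equivFin.symm.sum_comp fun v => P.real (f ⁻¹' {(v : E)}) * F v,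
      Finset.sum_coe_sort f.range fun v => P.real (f ⁻¹' {v}) * F v]
    exact ((f.map F).integral_eq_integral (SimpleFunc.integrable_of_isFiniteMeasure _)).symm.trans
      (f.map_integral F hf' hF)
  refine finite_ex (Finset.card_pos.2 ⟨f 0, f.mem_range_self 0⟩)
    (fun i => P.real (f ⁻¹' {(f.range.equivFin.symm i : E)}) * ‖(f.range.equivFin.symm i : E)‖)
    (fun i => by positivity) (fun i => ev (f.range.equivFin.symm i)) (fun i => hev _)
    (κ + δ) (ρ - δ) r (fun w => ?_) (by linarith) ?_ hd h1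
  · simp only [mul_assoc, hev']
    rw [← hs (fun v => ‖inner 𝕜 w v‖) (by simp)]
    have := integral_mono (μ := P) (hf'.const_inner (𝕜 := 𝕜) w).norm
      ((hP.const_inner (𝕜 := 𝕜) w).norm.add ((hP.sub hf').norm.const_mul ‖w‖)) fun x => by
        have := norm_inner_le_norm (𝕜 := 𝕜) w (x - f x)
        have h := norm_sub_norm_le (inner 𝕜 w (f x)) (inner 𝕜 w x)
        rw [norm_sub_rev, ← inner_sub_right] at h
        simp only [Pi.add_apply, Pi.sub_apply]
        linarith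
    simp only [Pi.add_apply] at this
    rw [integral_add (hP.const_inner (𝕜 := 𝕜) w).norm ((hP.sub hf').norm.const_mul ‖w‖),
      integral_const_mul] at this
    nlinarith [hκ w, norm_nonneg w]
  · rw [← hs (fun v => ‖v‖) (by simp)]
    have := integral_mono (μ := P) hP.norm (hf'.norm.add (hP.sub hf').norm) fun x => by
      have h := norm_sub_norm_le x (f x)
      simp only [Pi.add_apply, Pi.sub_apply]
      linarith
    simp only [Pi.add_apply] at this
    rw [integral_add hf'.norm (hP.sub hf').norm] at this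
    linarith

end fin

/-- variance of the square of a standard normal variable -/
noncomputable def CC : ℝ := Var[fun x : ℝ => x ^ 2; gaussianReal 0 1]

lemma norm_gauss {E : Type} [NormedAddCommGroup E] [InnerProductSpace ℝ E] [FiniteDimensional ℝ E]
    [MeasurableSpace E] [BorelSpace E] (n : ℕ) (hn : Module.finrank ℝ E = n) (h0 : 0 < n) :
    √n * (1 - CC / (2 * n)) ≤ ∫ g, ‖g‖ ∂(stdGaussian E) := by
  subst hn
  have hi : Integrable (fun g => ‖g‖) (stdGaussian E) := IsGaussian.integrable_id.norm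
  set n := Module.finrank ℝ E
  have hm : Measurable fun x : Fin n → ℝ => ∑ i, x i • stdOrthonormalBasis ℝ E i := by fun_prop
  rw [stdGaussian] at hi ⊢
  rw [integrable_map_measure (by fun_prop) hm.aemeasurable] at hi
  rw [integral_map hm.aemeasurable (by fun_prop)]
  have m2 : MemLp (fun x : ℝ => x ^ 2) 2 (gaussianReal 0 1) := by
    rw [memLp_two_iff_integrable_sq (by fun_prop)]
    simpa [← pow_mul] using integrable_pow_of_mem_interior_integrableExpSet
      (X := fun x : ℝ => x) (μ := gaussianReal 0 1) (by simp) 4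
  have e2 : ∫ x, x ^ 2 ∂(gaussianReal 0 1) = 1 := by
    have := variance_of_integral_eq_zero (X := fun x : ℝ => x) (μ := gaussianReal 0 1)
      (by fun_prop) integral_id_gaussianReal
    rw [← this, variance_fun_id_gaussianReal]; simp
  let P := Measure.pi fun _ : Fin n => gaussianReal 0 1
  have mS : MemLp (∑ i, fun ω : Fin n → ℝ => ω i ^ 2) 2 P := memLp_finsetSum' _ fun i _ =>
    m2.comp_measurePreserving (measurePreserving_eval _ i)
  have v := variance_sum_pi (μ := fun _ : Fin n => gaussianReal 0 1)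
    (X := fun _ x => x ^ 2) fun _ => m2
  rw [variance_eq_sub mS] at v
  have s1 : ∫ ω, (∑ i, fun ω : Fin n → ℝ => ω i ^ 2) ω ∂P = n := by
    simp only [Finset.sum_apply]
    rw [integral_finsetSum _ fun i _ => integrable_comp_eval (f := fun x : ℝ => x ^ 2)
      (μ := fun _ : Fin n => gaussianReal 0 1) (i := i) (m2.integrable one_le_two)]
    have : ∀ i, ∫ ω, ω i ^ 2 ∂P = 1 := fun i => (integral_comp_eval (f := fun x : ℝ => x ^ 2)
      (μ := fun _ : Fin n => gaussianReal 0 1) (i := i) m2.1).trans e2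
    rw [Finset.sum_congr rfl fun i _ => this i]
    simp
  rw [s1] at v
  simp only [Finset.sum_const, Finset.card_univ, Fintype.card_fin, nsmul_eq_mul] at v
  have r0 : 0 < √n := sqrt_pos.2 (by exact_mod_cast h0)
  have r2 : √n * √n = n := mul_self_sqrt (by positivity)
  have i1 := (mS.integrable one_le_two).const_mul (3 / (2 * √n))
  have i2 := mS.integrable_sq.const_mul (1 / (2 * √n * n))
  refine le_trans (le_of_eq ?_) (integral_mono (i1.sub i2) hi fun ω => ?_)
  · simp only [Pi.sub_apply]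
    rw [integral_sub i1 i2, integral_const_mul, integral_const_mul, s1]
    have : ∫ ω, (∑ i, fun ω : Fin n → ℝ => ω i ^ 2) ω ^ 2 ∂P = n * CC + n ^ 2 :=
      eq_add_of_sub_eq v
    rw [this]
    generalize √n = s at r0 r2
    rw [← r2]; field_simp; ring
  · have : (∑ i, fun ω : Fin n → ℝ => ω i ^ 2) ω = ‖∑ i, ω i • stdOrthonormalBasis ℝ E i‖ ^ 2 := by
      rw [(stdOrthonormalBasis ℝ E).sum_repr_symm (WithLp.toLp 2 ω), LinearIsometryEquiv.norm_map,
        EuclideanSpace.real_norm_sq_eq, Finset.sum_apply]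
    simp only [Pi.sub_apply, this]
    have s0 := norm_nonneg (∑ i, ω i • stdOrthonormalBasis ℝ E i)
    generalize ‖∑ i, ω i • stdOrthonormalBasis ℝ E i‖ = s at s0
    generalize √n = t at r0 r2
    rw [← r2, ← sub_nonneg]
    have : s - (3 / (2 * t) * s ^ 2 - 1 / (2 * t * (t * t)) * (s ^ 2) ^ 2) =
        s * (s - t) ^ 2 * (s + 2 * t) / (2 * t ^ 3) := by field_simp; ring
    rw [this]; positivity

lemma lim (c : ℝ) : Tendsto (fun d : ℕ => 1 - CC / (c * d)) atTop (𝓝 1) := by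
  have := (tendsto_const_div_atTop_nhds_zero_nat (CC / c)).const_sub 1
  simpa only [div_div, sub_zero] using this

theorem exR (r : ℝ) (hr : r < π - 1) : Ex ℝ r := by
  have hp := pi_pos
  have h : r * (1 / π) < 1 ^ 2 - 1 / π := by
    rw [← sub_pos] at hr ⊢
    have : 1 ^ 2 - 1 / π - r * (1 / π) = (π - 1 - r) / π := by field_simp
    rw [this]; positivity
  obtain ⟨d, ⟨h1, h2⟩, h3⟩ := (((((lim 2).pow 2).sub_const _).eventually (lt_mem_nhds h)).and
    ((lim 2).eventually (lt_mem_nhds one_pos))).and (eventually_gt_atTop 0) |>.exists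
  have hd : Module.finrank ℝ (EuclideanSpace ℝ (Fin d)) = d := by simp
  have d0 : (0 : ℝ) < d := by exact_mod_cast h3
  refine disc (stdGaussian (EuclideanSpace ℝ (Fin d))) IsGaussian.integrable_id √(2 / π) _ r
    (fun w => (abs_inner w).le) (by positivity) (norm_gauss d hd h3)
    (hd.symm ▸ h3) ?_
  rw [hd, mul_pow, sq_sqrt (by positivity), sq_sqrt (by positivity), mul_div_cancel_left₀ _ d0.ne',
    show 2 / π / 2 = 1 / π by ring]
  exact h1

lemma exC' {E : Type} [NormedAddCommGroup E] [InnerProductSpace ℂ E] [FiniteDimensional ℂ E]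
    [MeasurableSpace E] [BorelSpace E] (d : ℕ) (hd : Module.finrank ℂ E = d) (h3 : 0 < d) (r : ℝ)
    (h1 : r * (π / 4) < 2 * (1 - CC / (4 * d)) ^ 2 - π / 4) (h2 : 0 < 1 - CC / (4 * d)) :
    Ex ℂ r := by
  have f1 : FiniteDimensional ℝ E := inferInstance
  have f2 : Module.finrank ℝ E = 2 * d := by rw [finrank_real_of_complex, hd]
  let _ := InnerProductSpace.rclikeToReal ℂ E
  have hp := pi_pos
  have d0 : (0 : ℝ) < d := by exact_mod_cast h3
  have hn := norm_gauss (E := E) (2 * d) f2 (by omega)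
  have hi : Integrable (fun x => x) (stdGaussian E) := IsGaussian.integrable_id
  rw [Nat.cast_mul, Nat.cast_ofNat, ← mul_assoc, show (2 : ℝ) * 2 = 4 by norm_num] at hn
  refine disc (stdGaussian E) hi (π / 2 * √(2 / π)) _ r (fun w => ?_)
    (by positivity) hn (hd.symm ▸ h3) ?_
  · have : IsFiniteMeasure (volume.restrict (Set.uIoc 0 (2 * π))) :=
      isFiniteMeasure_restrict.2 measure_Ioc_lt_top.ne
    have := cs_cont
    have h := intervalIntegral_integral_swap (μ := stdGaussian E) (a := 0) (b := 2 * π)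
      (f := fun θ g => |inner ℝ (cs θ • w) g|) (by
        refine Integrable.mono' ((hi.norm.const_mul ‖w‖).comp_snd _)
          (Continuous.aestronglyMeasurable (by fun_prop)) (Eventually.of_forall fun z => ?_)
        simpa [uncurry, norm_smul, cs_norm] using abs_real_inner_le_norm (cs z.1 • w) z.2)
    have e : ∀ θ g, inner ℝ (cs θ • w) g = inner ℝ (cs θ) (inner ℂ w g) := fun θ g => by
      rw [Complex.inner, mul_comm, ← inner_smul_left]; rfl
    simp only [abs_inner, norm_smul, cs_norm] at h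
    simp only [e, cs_inner, abs_mul, abs_norm, intervalIntegral.integral_const_mul,
      abs_cos_int, integral_mul_const, intervalIntegral.integral_const, smul_eq_mul] at h
    linarith
  · rw [hd, mul_pow, mul_pow, sq_sqrt (by positivity), sq_sqrt (by positivity),
      show (π / 2) ^ 2 * (2 / π) / 2 = π / 4 by field_simp; ring,
      show 2 * (d : ℝ) * (1 - CC / (4 * d)) ^ 2 / d = 2 * (1 - CC / (4 * d)) ^ 2 by field_simp]
    exact h1

theorem exC (r : ℝ) (hr : r < 8 / π - 1) : Ex ℂ r := by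
  have hp := pi_pos
  have h : r * (π / 4) < 2 * 1 ^ 2 - π / 4 := by
    rw [← sub_pos] at hr ⊢
    have : 2 * 1 ^ 2 - π / 4 - r * (π / 4) = (8 / π - 1 - r) * π / 4 := by field_simp; ring
    rw [this]; positivity
  obtain ⟨d, ⟨h1, h2⟩, h3⟩ := ((((((lim 4).pow 2).const_mul 2).sub_const _).eventually
    (lt_mem_nhds h)).and ((lim 4).eventually (lt_mem_nhds one_pos))).and
    (eventually_gt_atTop 0) |>.exists
  exact exC' (E := EuclideanSpace ℂ (Fin d)) d (by simp) h3 r h1 h2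

end Pool.Agent.H.MP_aeebd3_an
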